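import Pool.Agent.Lib.MP_7c21d5_al.VB10_Final
import Pool.Agent.Lib.MP_d24c19_al.Malcev

set_option autoImplicit false

/-!
Virtual braid groups are linear, residually finite and Hopfian.
-/

namespace Pool.Agent.Results.MP_7c21d5_al.VirtualBraidLinear

/-- the generator `σ_(i+1)` of the free group, `i = 0, ..., n - 2` -/
def sig {n : ℕ} (i : Fin (n - 1)) : FreeGroup (Fin (n - 1) ⊕ Fin (n - 1)) := FreeGroup.of (Sum.inl i)

/-- the generator `ρ_(i+1)` of the free group, `i = 0, ..., n - 2` -/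
def rho {n : ℕ} (i : Fin (n - 1)) : FreeGroup (Fin (n - 1) ⊕ Fin (n - 1)) := FreeGroup.of (Sum.inr i)

/-- the defining relators of the virtual braid group `VB_n` -/
inductive IsRelator (n : ℕ) : FreeGroup (Fin (n - 1) ⊕ Fin (n - 1)) → Prop
  | braid (i j : Fin (n - 1)) (h : j.val = i.val + 1) :
      IsRelator n (sig i * sig j * sig i * (sig j * sig i * sig j)⁻¹)
  | braidComm (i j : Fin (n - 1)) (h : i.val + 1 < j.val ∨ j.val + 1 < i.val) :
      IsRelator n (sig i * sig j * (sig j * sig i)⁻¹)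
  | square (i : Fin (n - 1)) : IsRelator n (rho i * rho i)
  | coxeter (i j : Fin (n - 1)) (h : j.val = i.val + 1) :
      IsRelator n (rho i * rho j * rho i * (rho j * rho i * rho j)⁻¹)
  | coxeterComm (i j : Fin (n - 1)) (h : i.val + 1 < j.val ∨ j.val + 1 < i.val) :
      IsRelator n (rho i * rho j * (rho j * rho i)⁻¹)
  | mixed (i j : Fin (n - 1)) (h : j.val = i.val + 1) :
      IsRelator n (sig i * rho j * rho i * (rho j * rho i * sig j)⁻¹)
  | mixedComm (i j : Fin (n - 1)) (h : i.val + 1 < j.val ∨ j.val + 1 < i.val) :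
      IsRelator n (sig i * rho j * (rho j * sig i)⁻¹)

/-- the virtual braid group on `n` strands -/
abbrev VB (n : ℕ) : Type := PresentedGroup {w | IsRelator n w}

/-- the homomorphism to the group of the library -/
theorem exists_to (n : ℕ) : ∃ F : VB n →* Pool.Agent.VB.VBG n,
    (∀ i : Fin (n - 1), F (PresentedGroup.of (Sum.inl i)) = Pool.Agent.VB.vs n (i.val + 1)) ∧
    ∀ i : Fin (n - 1), F (PresentedGroup.of (Sum.inr i)) = Pool.Agent.VB.vr n (i.val + 1) := by
  let f : Fin (n - 1) ⊕ Fin (n - 1) → Pool.Agent.VB.VBG n := fun s =>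
    match s with
    | Sum.inl i => Pool.Agent.VB.vs n (i.val + 1)
    | Sum.inr i => Pool.Agent.VB.vr n (i.val + 1)
  have fl : ∀ i, f (Sum.inl i) = Pool.Agent.VB.vs n (i.val + 1) := fun i => rfl
  have fr : ∀ i, f (Sum.inr i) = Pool.Agent.VB.vr n (i.val + 1) := fun i => rfl
  have key : ∀ w ∈ {w | IsRelator n w}, FreeGroup.lift f w = 1 := by
    intro w hw
    rcases hw with ⟨i, j, h⟩ | ⟨i, j, h⟩ | ⟨i⟩ | ⟨i, j, h⟩ | ⟨i, j, h⟩ | ⟨i, j, h⟩ | ⟨i, j, h⟩
    · have hi := i.isLt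
      have hj := j.isLt
      simp only [sig, map_mul, map_inv, FreeGroup.lift_apply_of, fl, h]
      rw [mul_inv_eq_one]
      exact Pool.Agent.VB.vs_braid n (i.val + 1) (by omega) (by omega)
    · simp only [sig, map_mul, map_inv, FreeGroup.lift_apply_of, fl]
      rw [mul_inv_eq_one]
      exact Pool.Agent.VB.vs_comm n _ _ (by omega)
    · simp only [rho, map_mul, FreeGroup.lift_apply_of, fr]
      exact Pool.Agent.VB.vr_sq n _
    · have hi := i.isLt
      have hj := j.isLt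
      simp only [rho, map_mul, map_inv, FreeGroup.lift_apply_of, fr, h]
      rw [mul_inv_eq_one]
      exact Pool.Agent.VB.vr_braid n (i.val + 1) (by omega) (by omega)
    · simp only [rho, map_mul, map_inv, FreeGroup.lift_apply_of, fr]
      rw [mul_inv_eq_one]
      exact Pool.Agent.VB.vr_comm n _ _ (by omega)
    · have hi := i.isLt
      have hj := j.isLt
      simp only [sig, rho, map_mul, map_inv, FreeGroup.lift_apply_of, fl, fr, h]
      rw [mul_inv_eq_one]
      exact Pool.Agent.VB.v_mixed n (i.val + 1) (by omega) (by omega)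
    · simp only [sig, rho, map_mul, map_inv, FreeGroup.lift_apply_of, fl, fr]
      rw [mul_inv_eq_one]
      exact Pool.Agent.VB.vsr_comm n _ _ (by omega)
  refine ⟨PresentedGroup.toGroup key, fun i => ?_, fun i => ?_⟩
  · rw [PresentedGroup.toGroup.of]
  · rw [PresentedGroup.toGroup.of]

theorem rel_eq {n : ℕ} (w : FreeGroup (Fin (n - 1) ⊕ Fin (n - 1))) (h : IsRelator n w) :
    (QuotientGroup.mk w : VB n) = 1 :=
  (QuotientGroup.eq_one_iff _).2 (Subgroup.subset_normalClosure h)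

/-- and back -/
theorem exists_from (n : ℕ) : ∃ B : Pool.Agent.VB.VBG n →* VB n,
    (∀ i : Fin (n - 1), B (Pool.Agent.VB.vs n (i.val + 1)) = PresentedGroup.of (Sum.inl i)) ∧
    ∀ i : Fin (n - 1), B (Pool.Agent.VB.vr n (i.val + 1)) = PresentedGroup.of (Sum.inr i) := by
  let s : ℕ → VB n := fun i => if h : 1 ≤ i ∧ i < n then
    PresentedGroup.of (Sum.inl ⟨i - 1, by omega⟩) else 1
  let r : ℕ → VB n := fun i => if h : 1 ≤ i ∧ i < n then
    PresentedGroup.of (Sum.inr ⟨i - 1, by omega⟩) else 1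
  have s0 : ∀ i, (i = 0 ∨ n ≤ i) → s i = 1 := fun i h => dif_neg (by omega)
  have r0 : ∀ i, (i = 0 ∨ n ≤ i) → r i = 1 := fun i h => dif_neg (by omega)
  have s1 : ∀ i (h : 1 ≤ i ∧ i < n), s i = PresentedGroup.of (Sum.inl ⟨i - 1, by omega⟩) :=
    fun i h => dif_pos h
  have r1 : ∀ i (h : 1 ≤ i ∧ i < n), r i = PresentedGroup.of (Sum.inr ⟨i - 1, by omega⟩) :=
    fun i h => dif_pos h
  have c1 : ∀ i j, 1 ≤ i → i + 1 = j → j < n → s i * s j * s i * (s j * s i * s j)⁻¹ = 1 := by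
    intro i j h h' h''
    rw [s1 i ⟨h, by omega⟩, s1 j ⟨by omega, h''⟩]
    exact rel_eq _ (IsRelator.braid (n := n) ⟨i - 1, by omega⟩ ⟨j - 1, by omega⟩
      (by show j - 1 = i - 1 + 1; omega))
  have c2 : ∀ i j, 1 ≤ i → i + 1 = j → j < n → r i * r j * r i * (r j * r i * r j)⁻¹ = 1 := by
    intro i j h h' h''
    rw [r1 i ⟨h, by omega⟩, r1 j ⟨by omega, h''⟩]
    exact rel_eq _ (IsRelator.coxeter (n := n) ⟨i - 1, by omega⟩ ⟨j - 1, by omega⟩
      (by show j - 1 = i - 1 + 1; omega))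
  have c3 : ∀ i j, 1 ≤ i → i + 1 = j → j < n → s i * r j * r i * (r j * r i * s j)⁻¹ = 1 := by
    intro i j h h' h''
    rw [r1 i ⟨h, by omega⟩, r1 j ⟨by omega, h''⟩, s1 i ⟨h, by omega⟩, s1 j ⟨by omega, h''⟩]
    exact rel_eq _ (IsRelator.mixed (n := n) ⟨i - 1, by omega⟩ ⟨j - 1, by omega⟩
      (by show j - 1 = i - 1 + 1; omega))
  have c4 : ∀ i, 1 ≤ i → i < n → r i * r i = 1 := by
    intro i h h'
    rw [r1 i ⟨h, h'⟩]
    exact rel_eq _ (IsRelator.square (n := n) ⟨i - 1, by omega⟩)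
  have c5 : ∀ i j, 1 ≤ i → i < n → 1 ≤ j → j < n → (i + 2 ≤ j ∨ j + 2 ≤ i) →
      s i * s j * (s j * s i)⁻¹ = 1 := by
    intro i j h1 h2 h3 h4 h5
    rw [s1 i ⟨h1, h2⟩, s1 j ⟨h3, h4⟩]
    exact rel_eq _ (IsRelator.braidComm (n := n) ⟨i - 1, by omega⟩ ⟨j - 1, by omega⟩
      (by show i - 1 + 1 < j - 1 ∨ j - 1 + 1 < i - 1; omega))
  have c6 : ∀ i j, 1 ≤ i → i < n → 1 ≤ j → j < n → (i + 2 ≤ j ∨ j + 2 ≤ i) →
      r i * r j * (r j * r i)⁻¹ = 1 := by
    intro i j h1 h2 h3 h4 h5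
    rw [r1 i ⟨h1, h2⟩, r1 j ⟨h3, h4⟩]
    exact rel_eq _ (IsRelator.coxeterComm (n := n) ⟨i - 1, by omega⟩ ⟨j - 1, by omega⟩
      (by show i - 1 + 1 < j - 1 ∨ j - 1 + 1 < i - 1; omega))
  have c7 : ∀ i j, 1 ≤ i → i < n → 1 ≤ j → j < n → (i + 2 ≤ j ∨ j + 2 ≤ i) →
      s i * r j * (r j * s i)⁻¹ = 1 := by
    intro i j h1 h2 h3 h4 h5
    rw [s1 i ⟨h1, h2⟩, r1 j ⟨h3, h4⟩]
    exact rel_eq _ (IsRelator.mixedComm (n := n) ⟨i - 1, by omega⟩ ⟨j - 1, by omega⟩
      (by show i - 1 + 1 < j - 1 ∨ j - 1 + 1 < i - 1; omega))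
  let f : ℕ ⊕ ℕ → VB n := fun x =>
    match x with
    | Sum.inl i => s i
    | Sum.inr i => r i
  have fl : ∀ i, f (Sum.inl i) = s i := fun i => rfl
  have fr : ∀ i, f (Sum.inr i) = r i := fun i => rfl
  have key : ∀ w ∈ Pool.Agent.VB.vbRels n, FreeGroup.lift f w = 1 := by
    rintro w (⟨i, h, rfl | rfl⟩ | ⟨i, h, h', rfl | rfl | rfl⟩ | ⟨i, h, h', rfl⟩ |
      ⟨i, j, h1, h2, h3, h4, h5, rfl | rfl | rfl⟩)
    · rw [FreeGroup.lift_apply_of, fl, s0 i h]
    · rw [FreeGroup.lift_apply_of, fr, r0 i h]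
    · simp only [map_mul, map_inv, FreeGroup.lift_apply_of, fl]
      exact c1 i (i + 1) h rfl (by omega)
    · simp only [map_mul, map_inv, FreeGroup.lift_apply_of, fr]
      exact c2 i (i + 1) h rfl (by omega)
    · simp only [map_mul, map_inv, FreeGroup.lift_apply_of, fr, fl]
      exact c3 i (i + 1) h rfl (by omega)
    · simp only [map_mul, FreeGroup.lift_apply_of, fr]
      exact c4 i h (by omega)
    · simp only [map_mul, map_inv, FreeGroup.lift_apply_of, fl]
      exact c5 i j h1 (by omega) h3 (by omega) h5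
    · simp only [map_mul, map_inv, FreeGroup.lift_apply_of, fr]
      exact c6 i j h1 (by omega) h3 (by omega) h5
    · simp only [map_mul, map_inv, FreeGroup.lift_apply_of, fr, fl]
      exact c7 i j h1 (by omega) h3 (by omega) h5
  refine ⟨PresentedGroup.toGroup key, fun i => ?_, fun i => ?_⟩
  · have hi := i.isLt
    unfold Pool.Agent.VB.vs
    rw [PresentedGroup.toGroup.of, fl, s1 (i.val + 1) ⟨by omega, by omega⟩]
    rfl
  · have hi := i.isLt
    unfold Pool.Agent.VB.vr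
    rw [PresentedGroup.toGroup.of, fr, r1 (i.val + 1) ⟨by omega, by omega⟩]
    rfl

theorem vb_fg (n : ℕ) : Group.FG (VB n) := by
  rw [Group.fg_iff]
  exact ⟨Set.range PresentedGroup.of, PresentedGroup.closure_range_of _, Set.finite_range _⟩

/-- For every `n ≥ 2` the virtual braid group `VB_n` is linear over a field; it is residually finite
and Hopfian. -/
theorem result (n : ℕ) (hn : 2 ≤ n) :
    (∃ (k : Type) (_ : Field k) (m : ℕ) (f : VB n →* Matrix.GeneralLinearGroup (Fin m) k),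
      Function.Injective f) ∧
    (∀ g : VB n, g ≠ 1 → ∃ K : Subgroup (VB n), K.Normal ∧ K.FiniteIndex ∧ g ∉ K) ∧
    (∀ f : VB n →* VB n, Function.Surjective f → Function.Injective f) := by
  have hlin : ∃ (k : Type) (_ : Field k) (m : ℕ)
      (f : VB n →* Matrix.GeneralLinearGroup (Fin m) k), Function.Injective f := by
    obtain ⟨k, i1, N, ρ, hρ⟩ := Pool.Agent.VB.kb_linear n
    obtain ⟨φ, F, hF⟩ := Pool.Agent.VB.vb_embeds n hn
    obtain ⟨m, f, hf⟩ := Pool.Agent.VB.semidirect_linear φ k N ρ hρ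
    obtain ⟨A, hA1, hA2⟩ := exists_to n
    obtain ⟨B, hB1, hB2⟩ := exists_from n
    have hBA : B.comp A = MonoidHom.id _ := by
      refine PresentedGroup.ext fun x => ?_
      rcases x with i | i
      · rw [MonoidHom.comp_apply, hA1, hB1, MonoidHom.id_apply]
      · rw [MonoidHom.comp_apply, hA2, hB2, MonoidHom.id_apply]
    have hA : Function.Injective A := by
      intro x y hxy
      have h1 : B (A x) = B (A y) := by rw [hxy]
      have h2 := fun z => DFunLike.congr_fun hBA z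
      simp only [MonoidHom.comp_apply, MonoidHom.id_apply] at h2
      rwa [h2, h2] at h1
    exact ⟨k, i1, m, (f.comp F).comp A, (hf.comp hF).comp hA⟩
  have hfg : Group.FG (VB n) := vb_fg n
  have hres : ∀ g : VB n, g ≠ 1 →
      ∃ (Q : Type) (_ : Group Q) (_ : Finite Q) (φ : VB n →* Q), φ g ≠ 1 := by
    obtain ⟨k, i1, m, f, hf⟩ := hlin
    exact fun g hg => HopfArtin.malcev f hf g hg
  refine ⟨hlin, ?_, fun f hf => HopfArtin.hopfian_of_residual hres f hf⟩
  intro g hg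
  obtain ⟨Q, _, _, φ, hφ⟩ := hres g hg
  refine ⟨φ.ker, inferInstance, inferInstance, ?_⟩
  rw [MonoidHom.mem_ker]
  exact hφ

end Pool.Agent.Results.MP_7c21d5_al.VirtualBraidLinear
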